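import Pool.Agent.V11307.D5.Bridge

set_option autoImplicit false

/-!
# A `(6k+1)`-supercongruence with `(1/3)_k^4` modulo `p^3`
-/

namespace Pool.Agent.Results.MP_a7ff82_nt.Full

open Finset Pool.Agent.Helper857.Pad Pool.Agent.V11307.D5

/-- the truncated sum `S(p)`, with `(x)_k = (ascPochhammer ℚ k).eval x` -/
noncomputable def S (p : ℕ) : ℚ := ∑ k ∈ range ((p-1)/3 + 1),
  (6*(k:ℚ) + 1) * ((ascPochhammer ℚ k).eval (1/3 : ℚ))^4 * ((2*k).factorial : ℚ) /
    ((k.factorial : ℚ)^4 * (ascPochhammer ℚ (2*k)).eval (2/3 : ℚ))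

lemma ok (p : ℕ) [hp : Fact p.Prime] (m : ℕ) (h : p = 3*m+1) : Ok p (1/3) m where
  ha := by
    intro z hz
    have h3 : (2:ℤ) = 3*z := by
      have : (2:ℚ) = 3*(z:ℚ) := by linarith
      exact_mod_cast this
    omega
  haZ := by
    have : ¬ p ∣ 3 := by
      intro hd
      have := Nat.le_of_dvd (by norm_num) hd
      have h2 := hp.out.two_le
      interval_cases p <;> omega
    have := inv_nat_mem this
    rw [one_div]
    exact_mod_cast this
  hx := by
    have h3 : ¬ p ∣ 3 := by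
      intro hd
      have := Nat.le_of_dvd (by norm_num) hd
      have h2 := hp.out.two_le
      interval_cases p <;> omega
    refine ⟨((3:ℕ):ℚ)⁻¹, inv_nat_mem h3, ?_⟩
    rw [h]
    push_cast
    ring
  h1 := by
    intro j hj
    have : ¬ p ∣ (j+1) := by
      intro hd
      have := Nat.le_of_dvd (by omega) hd
      omega
    have := inv_nat_mem this
    push_cast at this
    exact this
  h2 := by
    intro j hj
    have : ¬ p ∣ (3*j+1) := by
      intro hd
      have := Nat.le_of_dvd (by omega) hd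
      omega
    have h5 := (Zp p).mul_mem (nat_mem 3) (inv_nat_mem this)
    have e : ((1:ℚ)/3 + j)⁻¹ = ((3:ℕ):ℚ) * ((3*j+1 : ℕ):ℚ)⁻¹ := by
      have n1 : (3*(j:ℚ)+1) ≠ 0 := by positivity
      have n2 : ((1:ℚ)/3 + j) ≠ 0 := by positivity
      push_cast
      field_simp
      ring
    rw [e]
    exact h5
  h3 := by
    intro j hj
    have : ¬ p ∣ (6*j+5) := by
      rintro ⟨c, hc⟩
      have hc1 : c < 2 := by
        by_contra hh
        have : p * 2 ≤ p * c := Nat.mul_le_mul_left p (by omega)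
        omega
      interval_cases c <;> omega
    have h5 := (Zp p).mul_mem (nat_mem 3) (inv_nat_mem this)
    have e : (2*((1:ℚ)/3) + 1 + 2*j)⁻¹ = ((3:ℕ):ℚ) * ((6*j+5 : ℕ):ℚ)⁻¹ := by
      have n1 : (6*(j:ℚ)+5) ≠ 0 := by positivity
      have n2 : (2*((1:ℚ)/3) + 1 + 2*j) ≠ 0 := by positivity
      push_cast
      field_simp
      ring
    rw [e]
    exact h5

/-- **MP_a7ff82_nt, Q1.** For every prime `p ≡ 1 (mod 3)`, `S(p) - p = p^3 y` for a rational number `y`
whose denominator is prime to `p`. -/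
theorem result (p : ℕ) (hp : p.Prime) (h1 : p % 3 = 1) :
    ∃ y : ℚ, ¬ p ∣ y.den ∧ S p - p = (p:ℚ)^3 * y := by
  haveI : Fact p.Prime := ⟨hp⟩
  obtain ⟨m, hm⟩ : ∃ m, p = 3*m+1 := ⟨p/3, by omega⟩
  have hok := ok p m hm
  have h2 : p ≠ 2 := by omega
  obtain ⟨y, hy, e⟩ := core hok h2
  refine ⟨3*y, (Zp p).mul_mem (by exact_mod_cast nat_mem 3) hy, ?_⟩
  have eS : S p = 3 * ∑ k ∈ range (m+1), ((1/3 : ℚ) + 2*k) * T (1/3) k := by
    unfold S
    rw [show (p-1)/3 + 1 = m+1 by omega, mul_sum]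
    apply sum_congr rfl
    intro k _
    rw [← term hok.ha k, show (2:ℚ)*(1/3) = 2/3 by norm_num]
    ring
  have e2 : (p:ℚ) = 3 * (1/3 + (m:ℚ)) := by
    rw [hm]; push_cast; ring
  have e3 : S p - p = 3 * (∑ k ∈ range (m+1), ((1/3 : ℚ) + 2*k) * T (1/3) k - (1/3 + (m:ℚ))) := by
    rw [eS, e2]
    ring
  rw [e3, e]
  ring

end Pool.Agent.Results.MP_a7ff82_nt.Full
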